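import Mathlib

namespace Pool.Agent.Results.MP_6ae079_co.Yes

open Set Finset Polynomial

abbrev E4 := EuclideanSpace ℝ (Fin 4)

/-- the face lattice of a polytope: all its (exposed) faces, ordered by inclusion -/
abbrev Faces (P : Set E4) := {F : Set E4 // IsExposed ℝ P F}

/-- the moment curve -/
noncomputable def moment (s : ℝ) : E4 := WithLp.toLp 2 ![s, s ^ 2, s ^ 3, s ^ 4]

theorem face_eq (V : Set E4) (c : ℝ) (f : E4 →L[ℝ] ℝ) (h : ∀ v ∈ V, 0 ≤ c + f v) :
    (∀ x ∈ convexHull ℝ V, 0 ≤ c + f x) ∧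
    {x ∈ convexHull ℝ V | c + f x = 0} = convexHull ℝ {v ∈ V | c + f v = 0} := by
  have aff : ∀ (x y : E4) (a b : ℝ), a + b = 1 →
      c + f (a • x + b • y) = a * (c + f x) + b * (c + f y) := by
    intro x y a b e
    simp only [map_add, map_smul, smul_eq_mul]
    linear_combination -c * e
  have k : convexHull ℝ V ⊆
      {x | 0 ≤ c + f x ∧ (c + f x = 0 → x ∈ convexHull ℝ {v ∈ V | c + f v = 0})} := by
    refine convexHull_min (fun v hv => ⟨h v hv, fun e => subset_convexHull ℝ _ ⟨hv, e⟩⟩) ?_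
    rintro x ⟨x1, x2⟩ y ⟨y1, y2⟩ a b ha hb e
    have p1 := mul_nonneg ha x1
    have p2 := mul_nonneg hb y1
    refine ⟨by rw [aff x y a b e]; linarith, fun z => ?_⟩
    rw [aff x y a b e] at z
    rcases ha.eq_or_lt with rfl | a0
    · obtain rfl : b = 1 := by linarith
      simpa using y2 (by linarith)
    rcases hb.eq_or_lt with rfl | b0
    · obtain rfl : a = 1 := by linarith
      simpa using x2 (by linarith)
    exact convex_convexHull ℝ _ (x2 (by nlinarith)) (y2 (by nlinarith)) ha hb e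
  refine ⟨fun x hx => (k hx).1, Subset.antisymm (fun x hx => (k hx.1).2 hx.2) ?_⟩
  refine convexHull_min (fun v hv => ⟨subset_convexHull ℝ _ hv.1, hv.2⟩) ?_
  rintro x ⟨x1, x2⟩ y ⟨y1, y2⟩ a b ha hb e
  exact ⟨convex_convexHull ℝ _ x1 y1 ha hb e, by rw [aff x y a b e, x2, y2]; ring⟩

theorem exp_zero (P : Set E4) (c : ℝ) (f : E4 →L[ℝ] ℝ) (h : ∀ x ∈ P, 0 ≤ c + f x) :
    IsExposed ℝ P {x ∈ P | c + f x = 0} := by
  rintro ⟨x0, hx0, h0⟩
  refine ⟨-f, ?_⟩
  ext x
  simp only [mem_ofPred_eq, ContinuousLinearMap.neg_apply]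
  constructor
  · rintro ⟨a, b⟩; exact ⟨a, fun y hy => by linarith [h y hy]⟩
  · rintro ⟨a, b⟩; exact ⟨a, by linarith [h x a, b x0 hx0]⟩

theorem zero_exp {P F : Set E4} (hF : IsExposed ℝ P F) (hne : F.Nonempty) :
    ∃ (c : ℝ) (f : E4 →L[ℝ] ℝ), (∀ x ∈ P, 0 ≤ c + f x) ∧ F = {x ∈ P | c + f x = 0} := by
  obtain ⟨l, rfl⟩ := hF hne
  obtain ⟨x0, a, b⟩ := hne
  refine ⟨l x0, -l, fun x hx => by simpa using b x hx, ?_⟩
  ext x
  simp only [mem_ofPred_eq, ContinuousLinearMap.neg_apply]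
  constructor
  · rintro ⟨p, q⟩; exact ⟨p, by linarith [q x0 a, b x p]⟩
  · rintro ⟨p, q⟩; exact ⟨p, fun y hy => by linarith [b y hy]⟩

lemma faces_iso {I J : Type} [Fintype J] (u : I → E4) (r : I → J → Prop) (c : J → ℝ)
    (f : J → E4 →L[ℝ] ℝ) (h0 : ∀ i j, 0 ≤ c j + f j (u i))
    (hr : ∀ i j, c j + f j (u i) = 0 ↔ r i j) (hne : ∀ i, ∃ j, ¬ r i j)
    (hc : ∀ (c' : ℝ) (f' : E4 →L[ℝ] ℝ), (∀ i, 0 ≤ c' + f' (u i)) →
      Order.IsExtent r {i | c' + f' (u i) = 0}) :
    Nonempty (Concept I J r ≃o Faces (convexHull ℝ (range u))) := by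
  classical
  have im : ∀ (c' : ℝ) (f' : E4 →L[ℝ] ℝ),
      {v ∈ range u | c' + f' v = 0} = u '' {i | c' + f' (u i) = 0} := by
    intro c' f'; ext v; constructor
    · rintro ⟨⟨i, rfl⟩, h⟩; exact ⟨i, h, rfl⟩
    · rintro ⟨i, h, rfl⟩; exact ⟨⟨i, rfl⟩, h⟩
  have key : ∀ C : Concept I J r, ∃ (c' : ℝ) (f' : E4 →L[ℝ] ℝ), (∀ i, 0 ≤ c' + f' (u i)) ∧
      {i | c' + f' (u i) = 0} = C.extent := by
    intro C
    have e : ∀ i, ∑ j with j ∈ C.intent, c j + (∑ j with j ∈ C.intent, f j) (u i)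
        = ∑ j with j ∈ C.intent, (c j + f j (u i)) := by
      intro i; rw [ContinuousLinearMap.sum_apply, sum_add_distrib]
    refine ⟨∑ j with j ∈ C.intent, c j, ∑ j with j ∈ C.intent, f j, fun i => ?_, ?_⟩
    · rw [e]; exact sum_nonneg fun j _ => h0 i j
    · ext i
      rw [mem_ofPred_eq, e, sum_eq_zero_iff_of_nonneg fun j _ => h0 i j,
        ← C.lowerPolar_intent, mem_lowerPolar_iff]
      simp [hr]
  have hz : ∀ (c' : ℝ) (f' : E4 →L[ℝ] ℝ), (∀ i, 0 ≤ c' + f' (u i)) →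
      ∀ v ∈ range u, 0 ≤ c' + f' v := by rintro c' f' h v ⟨i, rfl⟩; exact h i
  have ex : ∀ C : Concept I J r,
      IsExposed ℝ (convexHull ℝ (range u)) (convexHull ℝ (u '' C.extent)) := by
    intro C
    obtain ⟨c', f', h1, h2⟩ := key C
    obtain ⟨a, b⟩ := face_eq (range u) c' f' (hz _ _ h1)
    rw [← h2, ← im, ← b]; exact exp_zero _ _ _ a
  let φ : Concept I J r → Faces (convexHull ℝ (range u)) := fun C => ⟨_, ex C⟩
  have hφ : ∀ C D, φ C ≤ φ D ↔ C ≤ D := by
    intro C D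
    rw [← Concept.extent_subset_extent_iff]
    refine ⟨fun h i hi => ?_, fun h => convexHull_mono (image_mono h)⟩
    obtain ⟨c', f', h1, h2⟩ := key D
    obtain ⟨a, b⟩ := face_eq (range u) c' f' (hz _ _ h1)
    have : u i ∈ convexHull ℝ (u '' D.extent) := h (subset_convexHull ℝ _ ⟨i, hi, rfl⟩)
    rw [← h2, ← im, ← b] at this
    rw [← h2]; exact this.2
  refine ⟨RelIso.ofSurjective (OrderEmbedding.ofMapLEIff φ hφ) ?_⟩
  rintro ⟨F, hF⟩
  rcases F.eq_empty_or_nonempty with rfl | e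
  · refine ⟨Concept.ofAttributes r univ, Subtype.ext ?_⟩
    have : (Concept.ofAttributes r univ).extent = ∅ := by
      ext i
      obtain ⟨j, hj⟩ := hne i
      exact ⟨fun h => (hj (h (Set.mem_univ j))).elim, fun h => h.elim⟩
    change convexHull ℝ (u '' _) = ∅
    rw [this]; simp
  · obtain ⟨c', f', h1, h2⟩ := zero_exp hF e
    have h3 : ∀ i, 0 ≤ c' + f' (u i) := fun i => h1 _ (subset_convexHull ℝ _ ⟨i, rfl⟩)
    obtain ⟨C, hC⟩ := Concept.isExtent_iff_exists_concept.1 (hc c' f' h3)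
    refine ⟨C, Subtype.ext ?_⟩
    change convexHull ℝ (u '' _) = F
    rw [hC, ← im, h2, (face_eq (range u) c' f' (hz _ _ h3)).2]

/-- the 14 alternating triples -/
def tr : Fin 14 → Fin 7 × Fin 7 × Fin 7 :=
  ![(0, 1, 2), (0, 1, 4), (0, 1, 6), (0, 3, 4), (0, 3, 6), (0, 5, 6), (1, 2, 3), (1, 2, 5), (1, 4, 5), (2, 3, 4), (2, 3, 6), (2, 5, 6), (3, 4, 5), (4, 5, 6)]

def inT (j : Fin 14) (m : Fin 7) : Prop := m = (tr j).1 ∨ m = (tr j).2.1 ∨ m = (tr j).2.2

instance (j : Fin 14) (m : Fin 7) : Decidable (inT j m) := by unfold inT; infer_instance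

def ep (m : Fin 7) : ℤ := if m.val % 2 = 0 then 1 else -1

def W {K : Type} [Ring K] (t : Fin 7 → K) (j : Fin 14) (m : Fin 7) : K :=
  (if m = (tr j).1 then t (tr j).2.2 - t (tr j).2.1 else 0) +
  (if m = (tr j).2.1 then t (tr j).2.2 - t (tr j).1 else 0) +
  (if m = (tr j).2.2 then t (tr j).2.1 - t (tr j).1 else 0)

lemma tr_lt : ∀ j, (tr j).1 < (tr j).2.1 ∧ (tr j).2.1 < (tr j).2.2 ∧
    ep (tr j).2.1 = -ep (tr j).1 ∧ ep (tr j).2.2 = ep (tr j).1 := by decide

lemma comb : ∀ S : Fin 7 → Bool, (∃ j, ∀ m, inT j m → S m = true) ∨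
    ∃ k : Fin 7, ∃ σ : Fin 7, ∀ m, S m = true →
      (m < k → ep m = ep σ) ∧ (k < m → ep m = -ep σ) := by decide +kernel

lemma ep_sq (m : Fin 7) : (ep m : ℝ) * ep m = 1 := by unfold ep; split_ifs <;> norm_num

section
variable {t : Fin 7 → ℝ} (ht : StrictMono t)
include ht

lemma W_pos (j : Fin 14) (m : Fin 7) : 0 ≤ W t j m ∧ (W t j m = 0 ↔ ¬ inT j m) := by
  obtain ⟨a, b, -⟩ := tr_lt j
  have a' := ht a
  have b' := ht b
  unfold W inT
  by_cases h1 : m = (tr j).1 <;> by_cases h2 : m = (tr j).2.1 <;> by_cases h3 : m = (tr j).2.2 <;>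
    simp only [h1, h2, h3, if_true, if_false, true_or, or_true, not_true, iff_false, or_self,
      not_false_iff, iff_true] <;> (try split_ifs) <;> constructor <;> (try intro h) <;> linarith

omit ht in
lemma W_sum (j : Fin 14) (g : Fin 7 → ℝ) : ∑ m, g m * W t j m =
    g (tr j).1 * (t (tr j).2.2 - t (tr j).2.1) + g (tr j).2.1 * (t (tr j).2.2 - t (tr j).1)
      + g (tr j).2.2 * (t (tr j).2.1 - t (tr j).1) := by
  simp [W, mul_add, sum_add_distrib]

omit ht in
lemma W_rel (j : Fin 14) : ∑ m, (ep m : ℝ) * W t j m = 0 ∧ ∑ m, (ep m * t m) * W t j m = 0 := by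
  obtain ⟨-, -, a, b⟩ := tr_lt j
  rw [W_sum, W_sum, a, b]; push_cast; constructor <;> ring

lemma has_triple (x : Fin 7 → ℝ) (h0 : ∀ m, 0 ≤ x m) (h1 : ∑ m, (ep m : ℝ) * x m = 0)
    (h2 : ∑ m, (ep m * t m) * x m = 0) (hx : x ≠ 0) : ∃ j, ∀ m, inT j m → x m ≠ 0 := by
  classical
  rcases comb (fun m => decide (x m ≠ 0)) with ⟨j, hj⟩ | ⟨k, σ, h⟩
  · exact ⟨j, fun m hm => by simpa using hj m hm⟩
  exfalso
  have e : ∑ m, (ep σ : ℝ) * ep m * (t k - t m) * x m = 0 := by
    have : ∀ m, (ep σ : ℝ) * ep m * (t k - t m) * x m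
        = ep σ * t k * (ep m * x m) - ep σ * ((ep m * t m) * x m) := fun m => by ring
    simp only [this, sum_sub_distrib, ← mul_sum, h1, h2]; ring
  have p : ∀ m, x m ≠ 0 → m ≠ k → 0 < (ep σ : ℝ) * ep m * (t k - t m) * x m := by
    intro m hm hk
    obtain ⟨a, b⟩ := h m (by simpa using hm)
    refine mul_pos ?_ (lt_of_le_of_ne (h0 m) hm.symm)
    rcases lt_or_gt_of_ne hk with c | c
    · rw [a c, ep_sq]; linarith [ht c]
    · rw [b c]; push_cast; rw [mul_neg, ep_sq]; linarith [ht c]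
  have q : ∀ m ∈ (univ : Finset (Fin 7)), 0 ≤ (ep σ : ℝ) * ep m * (t k - t m) * x m := by
    intro m _
    by_cases a : x m = 0
    · simp [a]
    by_cases b : m = k
    · simp [b]
    exact (p m a b).le
  have z : ∀ m, m ≠ k → x m = 0 := by
    intro m hm
    by_contra a
    exact (p m a hm).ne' ((sum_eq_zero_iff_of_nonneg q).1 e m (Finset.mem_univ _))
  rw [sum_eq_single k (fun m _ hm => by rw [z m hm, mul_zero]) (by simp)] at h1
  have : x k = 0 := by have := ep_sq k; linear_combination (ep k : ℝ) * h1 - x k * this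
  apply hx; funext m
  by_cases b : m = k
  · rw [b]; exact this
  · exact z m b

lemma decomp (n : ℕ) : ∀ x : Fin 7 → ℝ, #{m | x m ≠ 0} ≤ n → (∀ m, 0 ≤ x m) →
    ∑ m, (ep m : ℝ) * x m = 0 → ∑ m, (ep m * t m) * x m = 0 →
    ∃ α : Fin 14 → ℝ, (∀ j, 0 ≤ α j) ∧ ∀ m, x m = ∑ j, α j * W t j m := by
  classical
  induction n with
  | zero =>
    intro x hn _ _ _
    refine ⟨0, fun _ => le_rfl, fun m => ?_⟩
    have := Finset.card_eq_zero.1 (Nat.le_zero.1 hn)
    by_contra h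
    have h2 : m ∈ ({m | x m ≠ 0} : Finset (Fin 7)) := by simpa using h
    rw [this] at h2; simp at h2
  | succ n ih =>
    intro x hn h0 h1 h2
    by_cases hx : x = 0
    · exact ⟨0, fun _ => le_rfl, fun m => by simp [hx]⟩
    obtain ⟨j, hj⟩ := has_triple ht x h0 h1 h2 hx
    obtain ⟨k, hk, hmin⟩ := exists_min_image ({m | inT j m} : Finset (Fin 7))
      (fun m => x m / W t j m) ⟨(tr j).1, mem_filter.2 ⟨Finset.mem_univ _, Or.inl rfl⟩⟩
    have hk' : inT j k := by simpa using hk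
    have wp : ∀ m, inT j m → 0 < W t j m := fun m hm =>
      lt_of_le_of_ne (W_pos ht j m).1 fun h => (W_pos ht j m).2.1 h.symm hm
    set δ := x k / W t j k with hδ
    have d0 : 0 ≤ δ := div_nonneg (h0 k) (wp k hk').le
    refine Exists.elim (ih (fun m => x m - δ * W t j m) ?_ ?_ ?_ ?_) fun α ⟨a0, a1⟩ => ?_
    rotate_right
    · refine ⟨fun i => α i + if i = j then δ else 0, fun i => ?_, fun m => ?_⟩
      · have := a0 i; beta_reduce; split_ifs <;> linarith
      · have := a1 m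
        simp only [add_mul, sum_add_distrib, ite_mul, zero_mul, sum_ite_eq', Finset.mem_univ,
          if_true]
        linarith
    · refine Nat.lt_succ_iff.1 (lt_of_lt_of_le (card_lt_card ⟨fun m hm => ?_, fun h => ?_⟩) hn)
      · simp only [mem_filter, Finset.mem_univ, true_and] at hm ⊢
        intro h
        by_cases c : inT j m
        · exact hj m c h
        · exact hm (by rw [h, (W_pos ht j m).2.2 c]; ring)
      · have := h (show k ∈ _ by simpa using hj k hk')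
        simp only [mem_filter, Finset.mem_univ, true_and] at this
        exact this (by rw [hδ, div_mul_cancel₀ _ (wp k hk').ne', sub_self])
    · intro m
      by_cases c : inT j m
      · have := (le_div_iff₀ (wp m c)).1 (hmin m (by simpa using c))
        linarith
      · rw [(W_pos ht j m).2.2 c]; linarith [h0 m]
    · have : ∀ m, (ep m : ℝ) * (x m - δ * W t j m) = ep m * x m - δ * (ep m * W t j m) :=
        fun m => by ring
      simp only [this, sum_sub_distrib, ← mul_sum, h1, (W_rel j).1]; ring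
    · have : ∀ m, (ep m * t m) * (x m - δ * W t j m)
          = (ep m * t m) * x m - δ * ((ep m * t m) * W t j m) := fun m => by ring
      simp only [this, sum_sub_distrib, ← mul_sum, h2, (W_rel j).2]; ring

lemma prod_sign (i : Fin 7) (S : Finset (Fin 7)) (hi : i ∉ S) (σ : ℤ)
    (h : σ * ∏ m ∈ S, (if m < i then 1 else -1 : ℤ) = 1) : 0 < (σ : ℝ) * ∏ m ∈ S, (t i - t m) := by
  have e : ∀ m ∈ S, t i - t m = ((if m < i then 1 else -1 : ℤ) : ℝ) * |t i - t m| := by
    intro m hm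
    split_ifs with c
    · rw [abs_of_pos (by linarith [ht c])]; simp
    · rw [abs_of_nonpos (by linarith [ht.monotone (not_lt.1 c)])]; simp
  have h' : (σ : ℝ) * ∏ m ∈ S, ((if m < i then 1 else -1 : ℤ) : ℝ) = 1 := by exact_mod_cast h
  rw [prod_congr rfl e, prod_mul_distrib, ← mul_assoc, h', one_mul]
  exact prod_pos fun m hm => abs_pos.2 (sub_ne_zero.2 fun c => hi (ht.injective c ▸ hm))

lemma lag (k : ℕ) (hk : k ≤ 5) : ∑ i, t i ^ k / ∏ m ∈ univ.erase i, (t i - t m) = 0 := by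
  have := Lagrange.coeff_eq_sum (s := (univ : Finset (Fin 7))) (v := t) ht.injective.injOn
    (P := X ^ k) (by rw [degree_X_pow]; simp; omega)
  rw [coeff_X_pow, if_neg (by simp; omega)] at this
  simpa using this.symm

end

noncomputable def lin (g : Fin 4 → ℝ) : E4 →L[ℝ] ℝ := ∑ a, g a • EuclideanSpace.proj a

lemma lin_apply (g : Fin 4 → ℝ) (x : E4) : lin g x = ∑ a, g a * x a := by
  simp [lin, ContinuousLinearMap.sum_apply]

lemma eq_lin (f : E4 →L[ℝ] ℝ) : ∃ g, f = lin g := by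
  refine ⟨fun a => f (EuclideanSpace.single a 1), ?_⟩
  ext x
  rw [lin_apply]
  conv_lhs => rw [← (EuclideanSpace.basisFun (Fin 4) ℝ).sum_repr x]
  simp [mul_comm]

lemma sgn1 : ∀ i : Fin 7, ep i * ∏ m ∈ univ.erase i, (if m < i then 1 else -1 : ℤ) = 1 := by
  decide +kernel

lemma sgn2 : ∀ j : Fin 14, #{m | ¬ inT j m} = 4 ∧ ∀ i, inT j i → ep (tr j).1 *
    ∏ m with ¬ inT j m, (if m < i then 1 else -1 : ℤ) = 1 := by decide +kernel

lemma cyclic {t : Fin 7 → ℝ} (ht : StrictMono t) :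
    Nonempty (Concept (Fin 7) (Fin 14) (fun i j => ¬ inT j i) ≃o
      Faces (convexHull ℝ (range fun i => moment (t i)))) := by
  have hf : ∀ j : Fin 14, ∃ (c : ℝ) (f : E4 →L[ℝ] ℝ), ∀ s, c + f (moment s) =
      (ep (tr j).1 : ℝ) * ∏ m with ¬ inT j m, (s - t m) := by
    intro j
    set P : ℝ[X] := C (ep (tr j).1 : ℝ) * ∏ m with ¬ inT j m, (X - C (t m)) with hP
    have hd : P.natDegree < 5 := by
      refine lt_of_le_of_lt (natDegree_C_mul_le _ _) ?_
      rw [natDegree_prod_of_monic _ _ fun m _ => monic_X_sub_C _]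
      simp [(sgn2 j).1]
    refine ⟨P.coeff 0, lin fun a => P.coeff (a + 1), fun s => ?_⟩
    have := eval_eq_sum_range' hd s
    rw [hP, eval_mul, eval_C, eval_prod] at this
    simp only [eval_sub, eval_X, eval_C] at this
    rw [this, lin_apply]
    simp [sum_range_succ, Fin.sum_univ_four, moment, hP]; ring
  choose c f hf using hf
  have pos : ∀ i j, inT j i → 0 < c j + f j (moment (t i)) := fun i j h => by
    rw [hf]; exact prod_sign ht i _ (by simpa using h) _ ((sgn2 j).2 i h)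
  have zer : ∀ i j, ¬ inT j i → c j + f j (moment (t i)) = 0 := fun i j h => by
    rw [hf, prod_eq_zero (i := i) (by simpa using h) (sub_self _), mul_zero]
  refine faces_iso _ _ c f (fun i j => ?_) (fun i j => ⟨fun h h' => (pos i j h').ne' h, zer i j⟩)
    (by decide) fun c' f' h => ?_
  · by_cases h : inT j i
    exacts [(pos i j h).le, (zer i j h).ge]
  obtain ⟨g, rfl⟩ := eq_lin f'
  have mp : ∀ i, 0 < (ep i : ℝ) / ∏ m ∈ univ.erase i, (t i - t m) := fun i => by
    have := prod_sign ht i _ (Finset.notMem_erase i univ) _ (sgn1 i)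
    rwa [div_pos_iff, ← mul_pos_iff]
  have ev : ∀ s, c' + lin g (moment s) = c' + g 0 * s + g 1 * s ^ 2 + g 2 * s ^ 3 + g 3 * s ^ 4 :=
    fun s => by simp [lin_apply, Fin.sum_univ_four, moment]; ring
  refine Exists.elim (decomp ht 7 (fun i => (ep i : ℝ) / (∏ m ∈ univ.erase i, (t i - t m)) *
    (c' + lin g (moment (t i)))) ((card_le_univ _).trans (by simp))
    (fun i => mul_nonneg (mp i).le (h i)) ?_ ?_) fun α ⟨a0, a1⟩ => ?_
  rotate_right
  · refine ⟨{j | α j ≠ 0}, ?_⟩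
    ext i
    have := a1 i
    rw [mem_lowerPolar_iff, mem_ofPred_eq, ← mul_eq_zero_iff_left (mp i).ne', this,
      sum_eq_zero_iff_of_nonneg fun j _ => mul_nonneg (a0 j) (W_pos ht j i).1]
    refine ⟨fun k j _ => ?_, fun k j hj => ?_⟩
    · by_cases e : α j = 0
      · rw [e, zero_mul]
      · rw [(W_pos ht j i).2.2 (k e), mul_zero]
    · exact (W_pos ht j i).2.1 ((mul_eq_zero.1 (k j (Finset.mem_univ _))).resolve_left hj)
  · have : ∀ i (D : ℝ), (ep i : ℝ) * (ep i / D * (c' + lin g (moment (t i)))) =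
        c' * (t i ^ 0 / D) + g 0 * (t i ^ 1 / D) + g 1 * (t i ^ 2 / D) + g 2 * (t i ^ 3 / D)
          + g 3 * (t i ^ 4 / D) := fun i D => by
      rw [ev, ← mul_assoc, ← mul_div_assoc, ep_sq]; ring
    simp only [this, sum_add_distrib, ← mul_sum]
    rw [lag ht 0, lag ht 1, lag ht 2, lag ht 3, lag ht 4] <;> norm_num
  · have : ∀ i (D : ℝ), (ep i * t i) * (ep i / D * (c' + lin g (moment (t i)))) =
        c' * (t i ^ 1 / D) + g 0 * (t i ^ 2 / D) + g 1 * (t i ^ 3 / D) + g 2 * (t i ^ 4 / D)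
          + g 3 * (t i ^ 5 / D) := fun i D => by
      rw [ev, mul_comm (ep i : ℝ) (t i), mul_assoc, ← mul_assoc (ep i : ℝ), ← mul_div_assoc,
        ep_sq]; ring
    simp only [this, sum_add_distrib, ← mul_sum]
    rw [lag ht 1, lag ht 2, lag ht 3, lag ht 4, lag ht 5] <;> norm_num

def tq : Fin 7 → ℚ := ![0, 2, 3, 5, 7, 10, 12]
/-- the 14 rational vertices -/
def Vq : Fin 14 → Fin 4 → ℚ :=
  ![![-3/77, 32/77, 60/77, -36/77],
    ![21/197, -24/985, 172/197, -468/985],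
    ![7/195, -14/325, 146/195, -644/975],
    ![-91/139, -68/139, 80/139, 4/139],
    ![-211/369, -46/123, 130/369, -236/369],
    ![5/153, -98/255, -98/153, -508/765],
    ![-5/13, 8/13, 8/13, -4/13],
    ![-17/171, 626/855, 34/57, -268/855],
    ![59/103, -166/515, -2/103, 388/515],
    ![-8/9, -1/15, 4/9, 4/45],
    ![-181/205, 116/1025, 52/205, -388/1025],
    ![1/209, -52/209, -160/209, -124/209],
    ![-19/67, -208/335, 4/67, 244/335],
    ![17/97, -44/97, -80/97, -28/97]]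
def Lq : Fin 14 → ℚ := ![154, 394, 780, 278, 738, 612, 130, 342, 206, 144, 410, 418, 134, 194]
def lq : Fin 7 → ℚ := ![39, 27, 17, 25, 5, 17, 33]
def pq : Fin 7 → ℚ := ![0, 2, 2, 1, 3, 3, 1]
def Aq : Fin 4 → Fin 7 → ℚ :=
  ![![-1, 3, -7, -35, 13, 1, 1],
    ![18/5, -4, 181/5, -103/5, 1/5, -56/5, -54/5],
    ![122/5, 154/5, 8/5, 68/5, 16/5, -122/5, -74/5],
    ![-109/5, -22, 79/10, -197/10, 379/10, -82/5, -83/5]]
def Gq : Fin 7 → Fin 4 → ℚ :=
  ![![1, -11/5, 2, -33/20],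
    ![3, 11/5, 9/5, 3/20],
    ![-2, 53/10, -13/10, 11/10],
    ![-5, -8/5, 2/5, 9/5],
    ![1, -21/10, 1/2, 53/10],
    ![2, 0, -3, 5/4],
    ![0, -2/5, -2, -31/20]]

lemma n1 : ∀ j, ∑ a, Vq j a ^ 2 = 1 := by decide +kernel
lemma n2 : ∀ j i, pq i + ∑ a, Gq i a * Vq j a = 212 / Lq j * W tq j i := by decide +kernel
lemma n3 : ∀ j, 0 < Lq j ∧ ∑ m, lq m * W tq j m = Lq j ∧
    ∀ a, ∑ m, Aq a m * W tq j m = Lq j * Vq j a := by decide +kernel
lemma n4 : StrictMono tq := by decide +kernel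
lemma n5 : Function.Injective Vq := by decide +kernel

noncomputable def V (j : Fin 14) : E4 := WithLp.toLp 2 fun a => (Vq j a : ℝ)

lemma W_cast (j : Fin 14) (m : Fin 7) : ((W tq j m : ℚ) : ℝ) = W (fun i => (tq i : ℝ)) j m := by
  unfold W; split_ifs <;> push_cast <;> rfl

lemma dual : Nonempty (Concept (Fin 14) (Fin 7) (fun j i => ¬ inT j i) ≃o
      Faces (convexHull ℝ (range V))) := by
  classical
  have ht : StrictMono fun i => (tq i : ℝ) := fun a b h => Rat.cast_lt.2 (n4 h)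
  set t := fun i => (tq i : ℝ) with htd
  have L0 : ∀ j, (0 : ℝ) < Lq j := fun j => by exact_mod_cast (n3 j).1
  have e : ∀ j i, (pq i : ℝ) + lin (fun a => Gq i a) (V j) = 212 / Lq j * W t j i := by
    intro j i
    rw [lin_apply, ← W_cast]
    simp only [V]
    exact_mod_cast n2 j i
  have p0 : ∀ j, (0 : ℝ) < 212 / Lq j := fun j => div_pos (by norm_num) (L0 j)
  refine faces_iso _ _ (fun i => (pq i : ℝ)) (fun i => lin fun a => Gq i a) (fun j i => ?_)
    (fun j i => ?_) (by decide) fun c' f' h => ?_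
  · rw [e]; exact mul_nonneg (p0 j).le (W_pos ht j i).1
  · rw [e, mul_eq_zero_iff_left (p0 j).ne']; exact (W_pos ht j i).2
  obtain ⟨g, rfl⟩ := eq_lin f'
  let φ : Fin 7 → ℝ := fun m => c' * lq m + ∑ a, g a * Aq a m
  have hφ : ∀ j, ∑ m, φ m * W t j m = Lq j * (c' + lin g (V j)) := by
    intro j
    have a1 : ∑ m, (lq m : ℝ) * W t j m = Lq j := by
      simp only [htd, ← W_cast]; exact_mod_cast (n3 j).2.1
    have a2 : ∀ a, ∑ m, (Aq a m : ℝ) * W t j m = Lq j * Vq j a := fun a => by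
      simp only [htd, ← W_cast]; exact_mod_cast (n3 j).2.2 a
    simp only [φ, add_mul, sum_add_distrib, sum_mul, mul_assoc, ← mul_sum, a1]
    rw [sum_comm, lin_apply]
    simp only [← mul_sum, a2]
    simp only [V, mul_add, Finset.mul_sum]
    congr 1
    · ring
    · exact sum_congr rfl fun a _ => by ring
  rw [Order.isExtent_iff]
  refine Set.Subset.antisymm (fun k hk => ?_) (subset_lowerPolar_upperPolar _ _)
  let s : Fin 7 → ℝ := fun m => ∑ j with c' + lin g (V j) = 0, W t j m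
  have s0 : ∀ m, 0 ≤ s m := fun m => sum_nonneg fun j _ => (W_pos ht j m).1
  have lin_s : ∀ (ψ : Fin 7 → ℝ) (δ : ℝ), ∑ m, ψ m * (s m - δ * W t k m) =
      ∑ j with c' + lin g (V j) = 0, ∑ m, ψ m * W t j m - δ * ∑ m, ψ m * W t k m := by
    intro ψ δ
    rw [sum_comm, mul_sum, ← sum_sub_distrib]
    exact sum_congr rfl fun m _ => by simp only [s, mul_sub, mul_sum]; ring
  obtain ⟨δ, d0, d1⟩ : ∃ δ : ℝ, 0 < δ ∧ ∀ m, δ * W t k m ≤ s m := by
    have e6 : ∀ᶠ δ : ℝ in nhdsWithin 0 (Ioi 0), 0 < δ := self_mem_nhdsWithin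
    refine (e6.and (Filter.eventually_all.2 fun m => ?_)).exists
    by_cases c : inT k m
    · have : 0 < s m := by
        refine lt_of_le_of_ne (s0 m) fun z => hk (fun j hj => ?_) c
        exact (W_pos ht j m).2.1 ((sum_eq_zero_iff_of_nonneg fun j _ => (W_pos ht j m).1).1
          z.symm j (by simpa using hj))
      refine Filter.Eventually.filter_mono nhdsWithin_le_nhds ?_
      refine (ContinuousAt.eventually_lt (f := fun δ : ℝ => δ * W t k m) (by fun_prop)
        continuousAt_const (by simpa using this)).mono fun _ h => h.le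
    · exact Filter.Eventually.of_forall fun δ => by rw [(W_pos ht k m).2.2 c, mul_zero]; exact s0 m
  obtain ⟨α, a0, a1⟩ := decomp ht 7 (fun m => s m - δ * W t k m)
    ((card_le_univ _).trans (by simp)) (fun m => sub_nonneg.2 (d1 m))
    (by rw [lin_s]; simp [(W_rel _).1]) (by rw [lin_s]; simp only [(W_rel _).2]; simp)
  have b1 := lin_s φ δ
  simp only [a1, mul_sum, hφ] at b1
  rw [sum_comm, sum_eq_zero (s := Finset.filter _ _) fun j hj => by
    rw [(mem_filter.1 hj).2, mul_zero]] at b1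
  have b2 : 0 ≤ ∑ j, ∑ m, φ m * (α j * W t j m) := sum_nonneg fun j _ => by
    have : ∑ m, φ m * (α j * W t j m) = α j * ∑ m, φ m * W t j m := by
      rw [mul_sum]; exact sum_congr rfl fun m _ => by ring
    rw [this, hφ]; exact mul_nonneg (a0 j) (mul_nonneg (L0 j).le (h j))
  have b3 := mul_pos d0 (L0 k)
  have b4 := h k
  change c' + lin g (V k) = 0
  nlinarith

theorem result : ∃ S : Finset E4, S.card = 14 ∧ (∀ v ∈ S, ∀ a, ∃ q : ℚ, v a = q) ∧
    (∀ v ∈ S, v ∈ Metric.sphere (0 : E4) 1) ∧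
    (convexHull ℝ (S : Set E4)).extremePoints ℝ = S ∧
    ∀ t : Fin 7 → ℝ, StrictMono t → Nonempty (Faces (convexHull ℝ (S : Set E4)) ≃o
      (Faces (convexHull ℝ (range fun i => moment (t i))))ᵒᵈ) := by
  classical
  have hS : ((univ.image V : Finset E4) : Set E4) = range V := by simp
  have sp : ∀ j, ‖V j‖ = 1 := fun j => by
    rw [EuclideanSpace.norm_eq, Real.sqrt_eq_one]
    simp only [V, Real.norm_eq_abs, sq_abs]
    exact_mod_cast n1 j
  refine ⟨univ.image V, ?_, ?_, ?_, ?_, fun t ht => ?_⟩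
  · rw [Finset.card_image_of_injective _ fun a b h => n5 (funext fun i => ?_)]
    · simp
    · have : (Vq a i : ℝ) = Vq b i := congrArg (fun v : E4 => v i) h
      exact_mod_cast this
  · intro v hv a
    obtain ⟨j, -, rfl⟩ := Finset.mem_image.1 hv
    exact ⟨Vq j a, rfl⟩
  · intro v hv
    obtain ⟨j, -, rfl⟩ := Finset.mem_image.1 hv
    simpa using sp j
  · refine Set.Subset.antisymm extremePoints_convexHull_subset ?_
    rw [hS]
    rintro _ ⟨j, rfl⟩
    have sub : convexHull ℝ (range V) ⊆ Metric.closedBall 0 1 :=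
      convexHull_min (by rintro _ ⟨i, rfl⟩; simp [sp i]) (convex_closedBall _ _)
    refine inter_extremePoints_subset_extremePoints_of_subset sub
      ⟨subset_convexHull ℝ _ ⟨j, rfl⟩, ?_⟩
    rw [StrictConvexSpace.extremePoints_closedBall_eq_sphere]
    simpa using sp j
  · obtain ⟨e1⟩ := cyclic ht
    obtain ⟨e2⟩ := dual
    rw [hS]
    exact ⟨e2.symm.trans (Concept.swapEquiv.symm.trans e1.dual)⟩

end Pool.Agent.Results.MP_6ae079_co.Yes
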